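import Pool.Agent.helper12.TY.Spec

/-! Project ty, row YTQ: the correction term. -/

set_option autoImplicit false

namespace Pool.Agent.TY

open Pool.Agent.helper58.DC Pool.Agent.DI Pool.Agent.GR Pool.Agent.OB Pool.Agent.TZ

theorem YTQ_zero (p : ℕ) (M : Ideal (integralClosure ℤ ℂ)) {E : Type} [Group E] (G' : Subgroup E)
    (τ : E → ℂ) (Q : Subgroup E) (h : ∀ d : ℤ, cSum p (G' ⊓ cz Q) ⊥ (cz Q) (gfun p M G' τ d) = 0) :
    TQ p M G' τ Q = 0 := by
  unfold TQ
  exact finsum_eq_zero_of_forall_eq_zero h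

theorem YTQ_sum {K E A : Type} [Group K] [Group E] [Group A] [Finite K] [Finite E] [Subsingleton A]
    (hTOA : TOA_stmt) (hFN : FN_stmt) (W : Extension K E A) (p : ℕ) (M : Ideal (integralClosure ℤ ℂ))
    (R : Finset (K → ℂ)) (c : ℤ) :
    ∑ᶠ d : ℤ, ∑ b ∈ R, c * altSum W p M b (d - 1) ⊤ = c * ∑ b ∈ R, aB p M b := by
  have hfin : ∀ b ∈ R, (Function.support fun d : ℤ => c * altSum W p M b (d - 1) ⊤).Finite := by
    intro b _
    have h1 := hFN K E A W p M b ⊤
    have h2 : (Function.support fun d : ℤ => c * altSum W p M b (d - 1) ⊤) ⊆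
        (fun d : ℤ => d - 1) ⁻¹' {d : ℤ | altSum W p M b d ⊤ ≠ 0} := by
      intro d hd h0
      apply hd
      show c * altSum W p M b (d - 1) ⊤ = 0
      rw [h0, mul_zero]
    exact (h1.preimage (Set.injOn_of_injective fun a b h => by simpa using h)).subset h2
  rw [finsum_sum_comm R _ hfin, Finset.mul_sum]
  refine Finset.sum_congr rfl fun b _ => ?_
  rw [hTOA K E A W p M b, ← smul_eq_mul, smul_finsum]
  have h3 : ∀ d : ℤ, c • ∑ᶠ V : Subgroup A, altSum W p M b d V = c * altSum W p M b d ⊤ := by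
    intro d
    have h4 : ∀ V : Subgroup A, altSum W p M b d V = altSum W p M b d ⊤ := fun V => by
      rw [Subsingleton.elim V ⊤]
    rw [finsum_congr h4, finsum_unique, smul_eq_mul]
  rw [finsum_congr h3]
  exact finsum_comp_equiv (Equiv.subRight (1 : ℤ)) (f := fun d : ℤ => c * altSum W p M b d ⊤)

theorem YTQ (hA2 : A2_stmt) (hA4 : A4_stmt) (hA7 : A7_stmt) (hA8 : A8_stmt) (hA14 : A14_stmt)
    (hB0 : B0_stmt) (hC15 : C15_stmt) (hD4 : D4_stmt) (hD9 : D9_stmt) (hFN : FN_stmt)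
    (hTOA : TOA_stmt) : YTQ_stmt := by
  classical
  intro G E A _ _ _ _ _ X p hpf M hM hp hcA τ Q hQQ
  obtain ⟨hQ, hQp, hQG⟩ := hQQ
  have hA : IsCyclic A := isCyclic_of_prime_card hcA
  have hfinA : Finite A := Finite.of_surjective X.proj X.proj_surjective
  have hcq : CycQ X.inc.range := hB0.2.2.2 G E A X hA
  have hnor : X.inc.range.Normal := hcq.1
  -- `cz Q` normalises `K`
  have hczn : cz Q ≤ nz (X.inc.range ⊓ cz Q) := by
    intro m hm
    rw [Subgroup.mem_normalizer_iff]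
    intro x
    have h1 : x ∈ X.inc.range ↔ m * x * m⁻¹ ∈ X.inc.range := by
      constructor
      · intro hx
        exact hnor.conj_mem x hx m
      · intro hx
        have := hnor.conj_mem _ hx m⁻¹
        simpa [mul_assoc] using this
    have h2 : x ∈ cz Q ↔ m * x * m⁻¹ ∈ cz Q := by
      constructor
      · intro hx
        exact (cz Q).mul_mem ((cz Q).mul_mem hm hx) ((cz Q).inv_mem hm)
      · intro hx
        have := (cz Q).mul_mem ((cz Q).mul_mem ((cz Q).inv_mem hm) hx) hm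
        simpa [mul_assoc] using this
    rw [Subgroup.mem_inf, Subgroup.mem_inf, h1, h2]
  obtain ⟨⟨Y, hY⟩, hYall⟩ := hA2 E p (X.inc.range ⊓ cz Q)
  obtain ⟨hY1, hY2, hY3, hY4, -⟩ := hYall Y hY
  by_cases hYb : Y = ⊥
  · subst hYb
    have hOpK : IsOp p (⊤ : Subgroup ↥(X.inc.range ⊓ cz Q)) ⊥ :=
      ((hA14 ↥(X.inc.range ⊓ cz Q) E p (X.inc.range ⊓ cz Q).subtype
        (Subgroup.subtype_injective _)).2.2 (X.inc.range ⊓ cz Q)).2 hY
    obtain ⟨E', A', _, _, _, W, ε, hεi, hA', hlt, hdvd⟩ := hD9 G E A X hA Q hQ hQG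
    have hfinA' : Finite A' := Finite.of_surjective W.proj W.proj_surjective
    -- the orders
    rw [hcA] at hlt hdvd
    have hcQ : Nat.card Q = p := by
      have h1 : Nat.card Q ∣ p := (dvd_mul_right _ _).trans hdvd
      rcases (Nat.dvd_prime hpf.out).1 h1 with h2 | h2
      · exact absurd (Subgroup.card_eq_one.1 h2) hQ
      · exact h2
    have hcA' : Nat.card A' = 1 := by
      rw [hcQ] at hdvd
      have h1 : p * Nat.card A' ∣ p * 1 := by rw [mul_one]; exact hdvd
      exact Nat.dvd_one.1 (Nat.dvd_of_mul_dvd_mul_left hpf.out.pos h1)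
    have hsub : Subsingleton A' := (Nat.card_eq_one_iff_unique.1 hcA').1
    obtain ⟨R, hR1, hR2⟩ := hC15 ↥(X.inc.range ⊓ cz Q) M
    refine ⟨R.filter fun b => Cov M X.inc.range τ (ext0 (X.inc.range ⊓ cz Q).subtype b), ?_, ?_⟩
    · intro b hb
      rw [Finset.mem_filter] at hb
      exact ⟨hR1 b hb.1, hOpK, hb.2⟩
    have hmain : ∀ d : ℤ, cSum p (X.inc.range ⊓ cz Q) ⊥ (cz Q) (gfun p M X.inc.range τ d) =
        ∑ b ∈ R.filter fun b => Cov M X.inc.range τ (ext0 (X.inc.range ⊓ cz Q).subtype b),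
          ((p : ℤ) ^ 2 * (Nat.card ↥(X.inc.range ⊓ cz Q) : ℤ)) * altSum W p M b (d - 1) ⊤ := by
      intro d
      rw [← hA7 E p (X.inc.range ⊓ cz Q) ⊥ (cz Q) _ hY (inf_le_left.trans hczn)]
      have h8 := hA8 ↥(X.inc.range ⊓ cz Q) E p ε.i ε.i_inj (cz Q) (gfun p M X.inc.range τ d)
      have hr : ε.i.range = X.inc.range ⊓ cz Q := by
        rw [hεi, Subgroup.range_subtype]
      rw [hr] at h8
      rw [← h8]
      rw [hD4 ↥(X.inc.range ⊓ cz Q) E' A' E W X.inc.range (cz Q) (Nat.card Q) ε p M hM hp hcq τ d R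
        hR1 hR2, Finset.sum_filter]
      refine Finset.sum_congr rfl fun b _ => ?_
      rw [hεi]
      by_cases hcov : Cov M X.inc.range τ (ext0 (X.inc.range ⊓ cz Q).subtype b)
      · rw [if_pos hcov, if_pos hcov]
        have h4 : ∀ U : Subgroup A', ((Nat.card Q * Nat.card U : ℕ) : ℤ) ^ 2 *
            ((Nat.card ↥(X.inc.range ⊓ cz Q) : ℤ) *
              altSum W p M b (d - padicValNat p (Nat.card Q * Nat.card U)) U) =
            ((p : ℤ) ^ 2 * (Nat.card ↥(X.inc.range ⊓ cz Q) : ℤ)) * altSum W p M b (d - 1) ⊤ := by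
          intro U
          have hcU : Nat.card U = 1 := by
            have : Subsingleton U := inferInstance
            exact Nat.card_eq_one_iff_unique.2 ⟨this, ⟨1⟩⟩
          rw [hcU, hcQ, mul_one, padicValNat.self hpf.out.one_lt, Subsingleton.elim U ⊤]
          push_cast
          ring
        rw [finsum_congr h4, finsum_unique]
      · rw [if_neg hcov, if_neg hcov]
    unfold TQ
    rw [finsum_congr hmain, YTQ_sum hTOA hFN W p M _ _]
    ring
  · refine ⟨∅, by simp, ?_⟩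
    rw [YTQ_zero]
    · simp
    · intro d
      refine hA4 E p (X.inc.range ⊓ cz Q) ⊥ (cz Q) Y _ hY2 hY1 hY3
        ((inf_le_left.trans hczn).trans hY4) ?_
      intro h
      exact hYb (le_bot_iff.1 h)

end Pool.Agent.TY
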